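import Pool.Agent.H16.ZW.Targets

/-! Module CHD: derivatives of the functions `j ↦ ρ (a geo C j)` and of the entries of `C ^ j`. -/

set_option autoImplicit false

open Filter Topology

namespace Pool.Agent.H48.ZW

open Pool.Agent.H16.ZW

theorem geo_add {N : ℕ} (A : Matrix (Fin N) (Fin N) ℤ) (j n : ℕ) :
    geo A (j + n) = geo A j + A ^ j * geo A n := by
  unfold geo
  rw [Finset.sum_range_add, Finset.mul_sum]
  congr 1
  exact Finset.sum_congr rfl fun i _ => pow_add A j i

theorem chd : T_CHD := by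
  intro p m K _ _ _ _ C ρ κ B hρ hκ hB
  refine ⟨fun u a j => ?_, fun a x j => ?_⟩
  · have h1 := (hκ (Matrix.vecMul a (C ^ j))).const_mul (u * ρ (Matrix.vecMul a (geo C j)))
    rw [mul_comm (u * ρ (Matrix.vecMul a (geo C j)))] at h1
    refine h1.congr fun T => ?_
    have h2 : Matrix.vecMul a (geo C (j + p ^ T)) = Matrix.vecMul a (geo C j) +
        Matrix.vecMul (Matrix.vecMul a (C ^ j)) (geo C (p ^ T)) := by
      rw [geo_add, Matrix.vecMul_add, Matrix.vecMul_vecMul]
    show u * ρ (Matrix.vecMul a (geo C j)) *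
        ((ρ (Matrix.vecMul (Matrix.vecMul a (C ^ j)) (geo C (p ^ T))) - 1) / (p : K) ^ T) =
      (u * ρ (Matrix.vecMul a (geo C (j + p ^ T))) - u * ρ (Matrix.vecMul a (geo C j))) /
        (p : K) ^ T
    rw [h2, hρ.mul]
    ring
  · have h1 : ∀ T : ℕ, ((∑ i, ((Matrix.vecMul a (C ^ (j + p ^ T)) i : ℤ) : K) * x i) -
        ∑ i, ((Matrix.vecMul a (C ^ j) i : ℤ) : K) * x i) / (p : K) ^ T =
        ∑ l, ∑ i, ((Matrix.vecMul a (C ^ j) l : ℤ) : K) *
          ((((C ^ p ^ T - 1) l i : ℤ) : K) / (p : K) ^ T * x i) := by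
      intro T
      have h2 : Matrix.vecMul a (C ^ (j + p ^ T)) = Matrix.vecMul a (C ^ j) +
          Matrix.vecMul (Matrix.vecMul a (C ^ j)) (C ^ p ^ T - 1) := by
        rw [Matrix.vecMul_sub, Matrix.vecMul_vecMul, ← pow_add, Matrix.vecMul_one]
        abel
      rw [← Finset.sum_sub_distrib, Finset.sum_div, Finset.sum_comm]
      refine Finset.sum_congr rfl fun i _ => ?_
      rw [h2, Pi.add_apply]
      have h3 : Matrix.vecMul (Matrix.vecMul a (C ^ j)) (C ^ p ^ T - 1) i =
          ∑ l, Matrix.vecMul a (C ^ j) l * (C ^ p ^ T - 1) l i := rfl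
      rw [h3]
      push_cast
      rw [add_mul, add_sub_cancel_left, Finset.sum_mul, Finset.sum_div]
      refine Finset.sum_congr rfl fun l _ => ?_
      ring
    simp only [h1]
    have h4 : (∑ i, ((Matrix.vecMul a (C ^ j) i : ℤ) : K) * (B.mulVec x) i) =
        ∑ l, ∑ i, ((Matrix.vecMul a (C ^ j) l : ℤ) : K) * (B l i * x i) := by
      refine Finset.sum_congr rfl fun l _ => ?_
      rw [← Finset.mul_sum]
      rfl
    rw [h4]
    exact tendsto_finsetSum _ fun l _ => tendsto_finsetSum _ fun i _ =>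
      ((hB l i).mul_const (x i)).const_mul _

end Pool.Agent.H48.ZW
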