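import Pool.Agent.H16.ZW.Targets

/-! Module UN: a finitely generated group of units is uniformly away from the boundary. -/

set_option autoImplicit false

namespace Pool.Agent.H48.ZW

open Pool.Agent.H16.ZW
open Pool.Agent.H12.ZD

theorem un (hMON : T_MON) : T_UN := by
  intro p s g hg
  obtain ⟨hadd, -, -, -, -, hv⟩ := hMON s
  have hg0 : ∀ i, g i ≠ 0 := by
    intro i h
    have h1 := hg i
    rw [h, v_zero] at h1
    exact zero_ne_one h1
  have hmul : ∀ a b : Fin s → ℤ, mon g (a + b) = mon g a * mon g b :=
    fun a b => hadd Qb g a b hg0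
  have hone : ∀ a : Fin s → ℤ, v p (mon g a) = 1 := fun a => (hv p g g a 1 le_rfl hg hg).1
  have hzero : mon g (0 : Fin s → ℤ) = 1 := by
    unfold mon
    simp
  -- closure properties
  have cadd : ∀ (θ : ℝ) (a b : Fin s → ℤ), v p (mon g a - 1) ≤ θ → v p (mon g b - 1) ≤ θ →
      v p (mon g (a + b) - 1) ≤ θ := by
    intro θ a b ha hb
    have h1 : mon g (a + b) - 1 = (mon g a - 1) * mon g b + (mon g b - 1) := by
      rw [hmul]; ring
    rw [h1]
    refine v_add_le' p ?_ hb
    rw [v_mul, hone, mul_one]
    exact ha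
  have cneg : ∀ a : Fin s → ℤ, v p (mon g (-a) - 1) = v p (mon g a - 1) := by
    intro a
    have h1 : mon g a * mon g (-a) = 1 := by
      rw [← hmul, add_neg_cancel, hzero]
    have h2 : mon g (-a) - 1 = -(mon g (-a) * (mon g a - 1)) := by
      rw [mul_sub, mul_comm (mon g (-a)), h1]; ring
    rw [h2, v_neg, v_mul, hone, one_mul]
  let G : AddSubgroup (Fin s → ℤ) :=
    { carrier := {a | v p (mon g a - 1) < 1}
      zero_mem' := by
        show v p (mon g 0 - 1) < 1
        rw [hzero, sub_self, v_zero]
        exact zero_lt_one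
      add_mem' := by
        intro a b ha hb
        have ha' : v p (mon g a - 1) < 1 := ha
        have hb' : v p (mon g b - 1) < 1 := hb
        show v p (mon g (a + b) - 1) < 1
        exact (cadd (max (v p (mon g a - 1)) (v p (mon g b - 1))) a b (le_max_left _ _)
          (le_max_right _ _)).trans_lt (max_lt ha' hb')
      neg_mem' := by
        intro a ha
        have ha' : v p (mon g a - 1) < 1 := ha
        show v p (mon g (-a) - 1) < 1
        rw [cneg]
        exact ha' }
  have hG : G.FG := by
    have h1 : (AddSubgroup.toIntSubmodule G).FG := IsNoetherian.noetherian _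
    rw [Submodule.fg_iff_addSubgroup_fg] at h1
    exact h1
  obtain ⟨S, hS⟩ := hG
  have hSG : ∀ a ∈ S, v p (mon g a - 1) < 1 := by
    intro a ha
    have h1 : a ∈ G := by
      rw [← hS]
      exact AddSubgroup.subset_closure ha
    exact h1
  obtain ⟨θ, hθ0, hθ1, hθ⟩ : ∃ θ : ℝ, 0 ≤ θ ∧ θ < 1 ∧ ∀ a ∈ S, v p (mon g a - 1) ≤ θ := by
    clear hS
    classical
    induction S using Finset.induction_on with
    | empty => exact ⟨0, le_rfl, zero_lt_one, fun a ha => absurd ha (Finset.notMem_empty a)⟩
    | insert b S _ ih =>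
      obtain ⟨θ, h0, h1, h2⟩ := ih fun a ha => hSG a (Finset.mem_insert_of_mem ha)
      refine ⟨max θ (v p (mon g b - 1)), h0.trans (le_max_left _ _),
        max_lt h1 (hSG b (Finset.mem_insert_self b S)), fun a ha => ?_⟩
      rcases Finset.mem_insert.1 ha with h | h
      · rw [h]
        exact le_max_right _ _
      · exact (h2 a h).trans (le_max_left _ _)
  refine ⟨θ, hθ0, hθ1, fun a ha => ?_⟩
  have haG : a ∈ AddSubgroup.closure (S : Set (Fin s → ℤ)) := by
    rw [hS]
    exact ha
  induction haG using AddSubgroup.closure_induction with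
  | mem x hx => exact hθ x hx
  | zero =>
    rw [hzero, sub_self, v_zero]
    exact hθ0
  | add x y hx hy ihx ihy =>
    have hxG : v p (mon g x - 1) < 1 := by
      have : x ∈ G := by rw [← hS]; exact hx
      exact this
    have hyG : v p (mon g y - 1) < 1 := by
      have : y ∈ G := by rw [← hS]; exact hy
      exact this
    exact cadd θ x y (ihx hxG) (ihy hyG)
  | neg x hx ihx =>
    rw [cneg] at ha ⊢
    exact ihx ha

end Pool.Agent.H48.ZW
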